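import Pool.Agent.helper61.CSW.W.SpecW

/-! # csw:NRC (MP_70a088_an, class S): all cycles outside `E` are repelling -/

set_option autoImplicit false

open Complex Metric Set Filter Topology MeasureTheory
open YPPS (fd fdd pre TT CV IsCyc rho Exact)
open MPS (BB)
open Pool.Agent.helper98.ILF (juliaSet fatouSet)

noncomputable section

open CSS (SE SV JJ)

namespace YW

lemma NRC_iter (f : SE) (z : ℂ) (m : ℕ) :
    HasDerivAt ((fun w : ℂ => f.eval w)^[m])
      (∏ j ∈ Finset.range m, fd f ((fun w : ℂ => f.eval w)^[j] z)) z := by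
  induction m with
  | zero => simpa using hasDerivAt_id z
  | succ m ih =>
    rw [Function.iterate_succ', Finset.prod_range_succ, mul_comm]
    exact HasDerivAt.comp z (f.hasDerivAt _) ih

lemma NRC_mlt (f : SE) (m : ℕ) (z : ℂ) :
    mlt f m z = ∏ j ∈ Finset.range m, fd f (it f j z) := (NRC_iter f z m).deriv

lemma NRC_it_add (f : SE) (a b : ℕ) (z : ℂ) : it f (a + b) z = it f a (it f b z) := by
  unfold it
  rw [Function.iterate_add_apply]

lemma NRC_mlt_add (f : SE) (a b : ℕ) (z : ℂ) :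
    mlt f (a + b) z = mlt f a (it f b z) * mlt f b z := by
  rw [NRC_mlt, NRC_mlt, NRC_mlt, add_comm a b, Finset.prod_range_add, mul_comm]
  congr 1
  apply Finset.prod_congr rfl
  intro j _
  rw [add_comm b j, NRC_it_add]

lemma NRC_mlt_mul (f : SE) (k l : ℕ) (z : ℂ) (hz : it f k z = z) :
    it f (l * k) z = z ∧ mlt f (l * k) z = (mlt f k z) ^ l := by
  induction l with
  | zero => exact ⟨by simp [it], by simp [NRC_mlt]⟩
  | succ l ih =>
    rw [Nat.succ_mul]
    refine ⟨by rw [NRC_it_add, hz, ih.1], ?_⟩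
    rw [NRC_mlt_add, hz, ih.2, pow_succ]

lemma NRC_fix (f : SE) (p : ℂ) (hp : f.eval p = p) (m : ℕ) : it f m p = p ∧ mlt f m p = (fd f p) ^ m := by
  have h1 : it f 1 p = p := hp
  have h2 : mlt f 1 p = fd f p := by
    rw [NRC_mlt]; simp [it]
  have h := NRC_mlt_mul f 1 m p h1
  rw [mul_one, h2] at h
  exact h

/-- a repelling fixed point is not in `E`. -/
lemma NRC_notE (f : SE) (E : Set ℂ) (hE : AE f E) (p : ℂ) (hp : f.eval p = p) (hr : 1 < ‖fd f p‖) :
    p ∉ E := by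
  intro h
  obtain ⟨m, hm, -, hlt⟩ := hE.att p h
  rw [(NRC_fix f p hp m).2, norm_pow] at hlt
  exact absurd hlt (not_lt.2 (one_le_pow₀ hr.le))

section
variable {k : ℕ} [NeZero k]

omit [NeZero k] in
lemma NRC_cyc_it (f : SE) (b : ZMod k → ℂ) (hb : ∀ i, f.eval (b i) = b (i + 1)) (i : ZMod k) (n : ℕ) :
    it f n (b i) = b (i + (n : ZMod k)) := by
  induction n with
  | zero => simp [it]
  | succ n ih =>
    have : it f (n + 1) (b i) = f.eval (it f n (b i)) := by
      unfold it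
      rw [Function.iterate_succ_apply']
    rw [this, ih, hb]
    congr 1
    push_cast
    ring

lemma NRC_cyc_mlt (f : SE) (b : ZMod k → ℂ) (hb : ∀ i, f.eval (b i) = b (i + 1)) (i : ZMod k) :
    it f k (b i) = b i ∧ mlt f k (b i) = rho f b := by
  constructor
  · rw [NRC_cyc_it f b hb]; simp
  · rw [NRC_mlt]
    have h1 : ∏ j ∈ Finset.range k, fd f (it f j (b i)) = ∏ j : ZMod k, fd f (b (i + j)) := by
      symm
      refine Finset.prod_nbij' (fun i : ZMod k => i.val) (fun j : ℕ => (j : ZMod k)) ?_ ?_ ?_ ?_ ?_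
      · intro i _
        exact Finset.mem_range.2 (ZMod.val_lt i)
      · intro j _
        exact Finset.mem_univ _
      · intro i _
        exact ZMod.natCast_zmod_val i
      · intro j hj
        exact ZMod.val_cast_of_lt (Finset.mem_range.1 hj)
      · intro j _
        rw [NRC_cyc_it f b hb, ZMod.natCast_zmod_val]
    rw [h1]
    exact Fintype.prod_equiv (Equiv.addLeft i) _ _ (fun j => rfl)

end

/-- NRC: all cycles outside `E` are repelling. -/
theorem NRC (hQIN : QIN_stmt) (hNR0 : NR0_stmt) (hNR1 : NR1_stmt) (hZCS : ZCS_stmt) (hECE : ECE_stmt)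
    (hERC : ERC_stmt) (hINE : INE_stmt) (hENS : ENS_stmt) (hNRP : NRP_stmt) (hRSZ : RSZ_stmt)
    (hMIX : YXPS.MIX_stmt) : NRC_stmt := by
  intro f X E n μ w hS hE z m hm hz hzE
  have hp1 : X.p₁ ∉ E := NRC_notE f E hE X.p₁ X.fix1 X.rep1
  have hp2 : X.p₂ ∉ E := NRC_notE f E hE X.p₂ X.fix2 X.rep2
  have hper : Function.IsPeriodicPt (fun w : ℂ => f.eval w) m z := hz
  have hk0 := hper.minimalPeriod_pos (by omega)
  have hdvd := hper.minimalPeriod_dvd
  have hitk : it f (Function.minimalPeriod (fun w : ℂ => f.eval w) z) z = z :=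
    Function.isPeriodicPt_minimalPeriod _ _
  obtain ⟨k, hk⟩ : ∃ k, Function.minimalPeriod (fun w : ℂ => f.eval w) z = k := ⟨_, rfl⟩
  rw [hk] at hk0 hdvd hitk
  obtain ⟨l, hl⟩ := hdvd
  have hl0 : l ≠ 0 := by
    rintro rfl
    rw [mul_zero] at hl
    omega
  have hmm : mlt f m z = (mlt f k z) ^ l := by
    rw [hl, mul_comm]
    exact (NRC_mlt_mul f k l z hitk).2
  have hne : mlt f k z ≠ 0 := hNR0 f X E n μ w hS hE z k hk0 hitk hzE
  have : NeZero k := ⟨hk0.ne'⟩
  obtain ⟨b, hb, hb0, hbj, hrho⟩ := hZCS f k z ⟨hk0, hk⟩ hne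
  rw [hmm, norm_pow]
  suffices hgoal : 1 < ‖mlt f k z‖ from one_lt_pow₀ hgoal hl0
  have hbE : ∀ i, b i ∉ E := by
    intro i hi
    have hfw : ∀ n : ℕ, b (i + (n : ZMod k)) ∈ E := by
      intro n
      induction n with
      | zero => simpa using hi
      | succ n ih =>
        have h1 := hE.inv _ ih
        rw [hb.step] at h1
        have h2 : i + ((n + 1 : ℕ) : ZMod k) = i + (n : ZMod k) + 1 := by push_cast; ring
        rw [h2]
        exact h1
    have h3 := hfw (-i).val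
    rw [ZMod.natCast_zmod_val, add_neg_cancel, hb0] at h3
    exact hzE h3
  -- the case of an auxiliary fixed point
  have hfixcase : ∀ p : ℂ, f.eval p = p → 1 < ‖fd f p‖ → (∃ i, b i = p) → 1 < ‖mlt f k z‖ := by
    rintro p hp hr ⟨i, hi⟩
    have h1 : b (i + 1) = b i := by rw [← hb.step, hi, hp]
    have h2 : (i : ZMod k) + 1 = i := hb.inj h1
    have h3 : (1 : ZMod k) = 0 := by
      have : i + 1 = i + 0 := by rw [h2, add_zero]
      exact add_left_cancel this
    have h4 : i = 0 := by rw [← mul_one i, h3, mul_zero]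
    have h5 : z = p := by rw [← hb0, ← hi, h4]
    rw [h5, (NRC_fix f p hp k).2, norm_pow]
    exact one_lt_pow₀ hr hk0.ne'
  by_cases hc1 : ∃ i, b i = X.p₁
  · exact hfixcase X.p₁ X.fix1 X.rep1 hc1
  by_cases hc2 : ∃ i, b i = X.p₂
  · exact hfixcase X.p₂ X.fix2 X.rep2 hc2
  push Not at hc1 hc2
  rw [← hrho]
  by_contra hcon
  push Not at hcon
  have hrho1 : rho f b ≠ 1 := hNR1 f X E n μ w hS hp1 hp2 k b hb hbE hc1 hc2
  obtain ⟨g, c₁, c₂, hCQ⟩ := hECE f X k b hb hc1 hc2 hrho1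
  obtain ⟨c, hRC⟩ := hERC f X k b g c₁ c₂ hCQ
  have hint : ∀ i, ∫ z : ℂ, μ i z * RS (ES f X) c z = 0 := by
    intro i
    obtain ⟨h1, h2⟩ := hINE f X E (μ i) (w i) (hS.fm i) hp1 hp2 k b g c₁ c₂ c hCQ hRC hbE
    rcases lt_or_eq_of_le hcon with hlt | heq
    · apply h2
      intro j
      obtain ⟨h3, h4⟩ := NRC_cyc_mlt f b hb.step j
      exact (hS.fm i).att (b j) k hk0 h3 (by rw [h4]; exact hlt) (hbE j)
    · rw [heq, Real.log_one, abs_zero, mul_zero] at h1
      exact norm_le_zero_iff.1 h1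
  have hc0 := hS.sp c hRC.mz hint
  have hRS0 : ∀ z : ℂ, RS (ES f X) c z = 0 := by
    intro z
    unfold RS
    apply Finset.sum_eq_zero
    intro e he
    rw [hc0 e he, zero_div]
  have hI : (∫ z : ℂ, ‖RS (ES f X) c z‖) = 0 := by simp [hRS0]
  obtain ⟨hE1, hE2, -⟩ := hENS f X k b g c₁ c₂ c hCQ hRC
  rw [hI, add_zero] at hE1
  rw [hI, mul_zero, add_zero] at hE2
  have hrpos : 0 < ‖rho f b‖ := by
    rw [norm_pos_iff]
    unfold rho
    exact Finset.prod_ne_zero_iff.2 (fun i _ => hb.ne0 i)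
  have hlog : Real.log ‖rho f b‖ = 0 := by
    apply le_antisymm
    · exact Real.log_nonpos hrpos.le hcon
    · have := Real.pi_pos
      by_contra h
      push Not at h
      have : 2 * Real.pi * Real.log ‖rho f b‖ < 0 := mul_neg_of_pos_of_neg (by positivity) h
      linarith
  rw [hlog, mul_zero, ENNReal.ofReal_zero] at hE2
  obtain ⟨-, hAD, -⟩ := hQIN f X k b g c₁ c₂ hCQ
  obtain ⟨hmB, hmT, hmE, hmD, hDf⟩ := hMIX f _ _ hAD
  have hae : ∀ᵐ z : ℂ, ENNReal.ofReal (YXPS.Df f (qc X b g c₁ c₂) z + 2 * ‖YXPS.er f (qc X b g c₁ c₂) z‖) = 0 := by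
    have h1 := le_antisymm hE2 bot_le
    rw [lintegral_eq_zero_iff] at h1
    · exact h1
    · exact ENNReal.measurable_ofReal.comp (hmD.add (hmE.norm.const_mul 2))
  have hT : ∀ᵐ z : ℂ, TT f (qc X b g c₁ c₂) z = qc X b g c₁ c₂ z := by
    filter_upwards [hRC.eq] with z hz
    rw [hRS0] at hz
    exact sub_eq_zero.1 hz
  have hD0 : ∀ᵐ z : ℂ, YXPS.Df f (qc X b g c₁ c₂) z = 0 := by
    filter_upwards [hae] with z hz
    rw [ENNReal.ofReal_eq_zero] at hz
    have h1 := hDf z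
    have h2 := norm_nonneg (YXPS.er f (qc X b g c₁ c₂) z)
    linarith
  exact hRSZ.2 f X k b g c₁ c₂ hCQ (hNRP f _ _ hAD.fin hAD.dif hAD.dec hT hD0)

end YW
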